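import Pool.Agent.Y538.Par.Mix

/-!
# Partial weighted matrix multiplication: the one-shot bound and the bound for border rank
-/

set_option autoImplicit false
set_option linter.unusedSectionVars false

namespace Pool.Agent.T9h18.Part

open Polynomial Finset Filter Pool.Agent.H515R2.MMR Pool.Agent.Y538.Par

/-- The number of products of the partial weighted matrix multiplication with weights `t`. -/
noncomputable def terms {I J K : Type} (t : I → J → K → ℂ) : ℕ :=
  Nat.card {x : I × J × K // t x.1 x.2.1 x.2.2 ≠ 0}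

/-- dyadic pigeonhole principle -/
lemma dyadic {A : Type*} (s : Finset A) (f : A → ℕ) (B : ℕ) (hB : ∀ a ∈ s, f a ≤ B) :
    ∃ l : ℕ, ∑ a ∈ s, f a ≤
      (Nat.log 2 B + 1) * (2 ^ (l + 1) * (s.filter fun a => 2 ^ l ≤ f a).card) := by
  obtain ⟨l, hl, hmax⟩ := exists_max_image (range (Nat.log 2 B + 1))
    (fun l => 2 ^ (l + 1) * (s.filter fun a => 2 ^ l ≤ f a).card) ⟨0, by simp⟩
  refine ⟨l, ?_⟩
  have h1 : ∀ a ∈ s, f a ≤ ∑ l ∈ range (Nat.log 2 B + 1), if 2 ^ l ≤ f a then 2 ^ (l + 1) else 0 := by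
    intro a ha
    rcases Nat.eq_zero_or_pos (f a) with h0 | h0
    · rw [h0]; exact Nat.zero_le _
    · have h2 : Nat.log 2 (f a) ∈ range (Nat.log 2 B + 1) :=
        mem_range.mpr (Nat.lt_succ_of_le (Nat.log_mono_right (hB a ha)))
      refine le_trans ?_ (single_le_sum (f := fun l => if 2 ^ l ≤ f a then 2 ^ (l + 1) else 0)
        (fun i _ => Nat.zero_le _) h2)
      show f a ≤ if 2 ^ (Nat.log 2 (f a)) ≤ f a then 2 ^ (Nat.log 2 (f a) + 1) else 0
      rw [if_pos (Nat.pow_log_le_self 2 (by omega))]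
      exact (Nat.lt_pow_succ_log_self (by norm_num) _).le
  refine (sum_le_sum h1).trans ?_
  rw [sum_comm]
  have h2 : ∀ l ∈ range (Nat.log 2 B + 1), (∑ a ∈ s, if 2 ^ l ≤ f a then 2 ^ (l + 1) else 0) ≤
      2 ^ (l + 1) * (s.filter fun a => 2 ^ l ≤ f a).card := by
    intro l _
    rw [← sum_filter, sum_const, smul_eq_mul, mul_comm]
  refine (sum_le_sum h2).trans ((sum_le_card_nsmul _ _ _ hmax).trans (le_of_eq ?_))
  rw [card_range, smul_eq_mul]

lemma exists_emb {A : Type*} (s : Finset A) {n : ℕ} (h : n ≤ s.card) :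
    ∃ f : Fin n → A, Function.Injective f ∧ ∀ i, f i ∈ s := by
  let e := s.equivFin
  refine ⟨fun i => (e.symm (Fin.castLE h i)).1, ?_, fun i => (e.symm _).2⟩
  intro i j hij
  have := e.symm.injective (Subtype.ext hij)
  exact Fin.castLE_injective h this

variable {I J K : Type} [Fintype I] [Fintype J] [Fintype K] [DecidableEq I] [DecidableEq J]
  [DecidableEq K]

open Classical in
lemma terms_eq (t : I → J → K → ℂ) :
    terms t = ∑ x : I × K, (univ.filter fun j => t x.1 j x.2 ≠ 0).card := by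
  rw [terms, Nat.card_eq_fintype_card, Fintype.card_subtype, card_filter, Fintype.sum_prod_type]
  simp_rw [Fintype.sum_prod_type]
  refine sum_congr rfl fun i _ => ?_
  rw [sum_comm]
  refine sum_congr rfl fun k _ => ?_
  rw [card_filter]

lemma omega_le_three : omega ≤ 3 := by
  refine csInf_le omega_set_bddBelow ⟨1, fun n => ?_⟩
  have := rk_le (hasRank_cube n)
  rw [one_mul]
  have h : ((n : ℝ) ^ (3 : ℝ)) = ((n ^ 3 : ℕ) : ℝ) := by
    push_cast
    exact_mod_cast Real.rpow_natCast (n : ℝ) 3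
  rw [h]
  exact_mod_cast this

/-- Combinatorial part: a dense box of slices. -/
lemma exists_box (t : I → J → K → ℂ) (hP : 1 ≤ terms t) :
    ∃ m p q : ℕ, 1 ≤ m ∧ 1 ≤ p ∧ 1 ≤ q ∧ m ≤ Fintype.card K ∧
      terms t ≤ 8 * (Nat.log 2 (Fintype.card I) + 1) * (Nat.log 2 (Fintype.card J) + 1) *
        (p * q * m) ∧
      ∃ κ : Fin (2 * m - 1) → K, Function.Injective κ ∧
        ∀ c, ∃ ι : Fin p → I, Function.Injective ι ∧
          ∀ α, q ≤ (univ.filter fun j => t (ι α) j (κ c) ≠ 0).card := by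
  classical
  set d : I × K → ℕ := fun x => (univ.filter fun j => t x.1 j x.2 ≠ 0).card with hd
  obtain ⟨l, hl⟩ := dyadic (univ : Finset (I × K)) d (Fintype.card J) (fun x _ => card_le_univ _)
  set e : K → ℕ := fun k => (univ.filter fun i => 2 ^ l ≤ d (i, k)).card with he
  obtain ⟨l', hl'⟩ := dyadic (univ : Finset K) e (Fintype.card I) (fun x _ => card_le_univ _)
  have h1 : (univ.filter fun x : I × K => 2 ^ l ≤ d x).card = ∑ k, e k := by
    rw [card_filter, Fintype.sum_prod_type, sum_comm]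
    refine sum_congr rfl fun k _ => ?_
    rw [he]
    simp only
    rw [card_filter]
  rw [h1] at hl
  set G : Finset K := univ.filter fun k => 2 ^ l' ≤ e k with hG
  have h2 : terms t ≤ (Nat.log 2 (Fintype.card J) + 1) * (2 ^ (l + 1) *
      ((Nat.log 2 (Fintype.card I) + 1) * (2 ^ (l' + 1) * G.card))) := by
    rw [terms_eq]
    convert hl.trans (Nat.mul_le_mul_left _ (Nat.mul_le_mul_left _ hl')) using 2
  have hG1 : 1 ≤ G.card := by
    by_contra h
    have h0 : G.card = 0 := by omega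
    rw [h0] at h2
    simp at h2
    omega
  set m : ℕ := (G.card + 1) / 2 with hm
  have hm1 : 1 ≤ m := by omega
  have hm2 : 2 * m - 1 ≤ G.card := by omega
  have hm3 : G.card ≤ 2 * m := by omega
  have hGc : G.card ≤ Fintype.card K := card_le_univ _
  obtain ⟨κ, hκ, hκG⟩ := exists_emb G hm2
  refine ⟨m, 2 ^ l', 2 ^ l, hm1, Nat.one_le_two_pow, Nat.one_le_two_pow, by omega, ?_, κ, hκ, ?_⟩
  · refine h2.trans ?_
    calc (Nat.log 2 (Fintype.card J) + 1) * (2 ^ (l + 1) *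
          ((Nat.log 2 (Fintype.card I) + 1) * (2 ^ (l' + 1) * G.card)))
        ≤ (Nat.log 2 (Fintype.card J) + 1) * (2 ^ (l + 1) *
          ((Nat.log 2 (Fintype.card I) + 1) * (2 ^ (l' + 1) * (2 * m)))) := by gcongr
      _ = _ := by rw [pow_succ, pow_succ]; ring
  · intro c
    have h3 := (mem_filter.mp (hκG c)).2
    obtain ⟨ι, hι, hι2⟩ := exists_emb _ h3
    exact ⟨ι, hι, fun α => (mem_filter.mp (hι2 α)).2⟩

/-- One-shot bound. -/
theorem one_shot (t : I → J → K → ℂ) {r : ℕ} (H : Rk (WT t) r) :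
    (terms t : ℝ) ^ omega ≤ ((8 * (Nat.log 2 (Fintype.card I) + 1) *
      (Nat.log 2 (Fintype.card J) + 1) : ℕ) : ℝ) ^ omega *
      ((Fintype.card K : ℝ) ^ (omega - 2) * (r : ℝ) ^ 3) := by
  have h2 := two_le_omega
  rcases Nat.eq_zero_or_pos (terms t) with h0 | h0
  · rw [h0]
    simp only [Nat.cast_zero]
    rw [Real.zero_rpow (by linarith)]
    positivity
  obtain ⟨m, p, q, hm, hp, hq, hmK, hbound, κ, hκ, hgood⟩ := exists_box t h0
  obtain ⟨u, v, w, hH⟩ := H
  have hB := build t u v w (fun x y z => (hH x y z).symm) κ hκ (by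
    intro c
    obtain ⟨ι, hι, h⟩ := hgood c
    refine ⟨ι, hι, fun α => ?_⟩
    convert h α using 3)
  have hB' : BRk (DSM (Fin (m * m)) (Fin (p * q))) (r ^ 3) := by
    have h3 := hB.comp
      (fun x : Fin (m * m) × Fin (p * q) × Fin (p * q) =>
        (finProdFinEquiv.symm x.1, finProdFinEquiv.symm x.2.1, finProdFinEquiv.symm x.2.2))
      (fun x : Fin (m * m) × Fin (p * q) × Fin (p * q) =>
        (finProdFinEquiv.symm x.1, finProdFinEquiv.symm x.2.1, finProdFinEquiv.symm x.2.2))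
      (fun x : Fin (m * m) × Fin (p * q) × Fin (p * q) =>
        (finProdFinEquiv.symm x.1, finProdFinEquiv.symm x.2.1, finProdFinEquiv.symm x.2.2))
    have h4 : (DSM (Fin (m * m)) (Fin (p * q))) =
        (fun x y z => DSM (Fin m × Fin m) (Fin p × Fin q)
          (finProdFinEquiv.symm x.1, finProdFinEquiv.symm x.2.1, finProdFinEquiv.symm x.2.2)
          (finProdFinEquiv.symm y.1, finProdFinEquiv.symm y.2.1, finProdFinEquiv.symm y.2.2)
          (finProdFinEquiv.symm z.1, finProdFinEquiv.symm z.2.1, finProdFinEquiv.symm z.2.2)) := by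
      funext x y z
      simp only [DSM, EmbeddingLike.apply_eq_iff_eq]
    rw [h4]
    exact h3
  have h5 := hB'.DSM_le (Nat.mul_pos hm hm) (Nat.mul_pos hp hq)
  set D : ℕ := 8 * (Nat.log 2 (Fintype.card I) + 1) * (Nat.log 2 (Fintype.card J) + 1) with hD
  have hm0 : (0 : ℝ) < m := by exact_mod_cast hm
  have hpq0 : (0 : ℝ) ≤ ((p * q : ℕ) : ℝ) := Nat.cast_nonneg _
  have h6 : (terms t : ℝ) ≤ (D : ℝ) * (((p * q : ℕ) : ℝ) * m) := by
    exact_mod_cast hbound
  have hmK' : (m : ℝ) ≤ Fintype.card K := by exact_mod_cast hmK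
  calc (terms t : ℝ) ^ omega ≤ ((D : ℝ) * (((p * q : ℕ) : ℝ) * m)) ^ omega :=
        Real.rpow_le_rpow (Nat.cast_nonneg _) h6 (by linarith)
    _ = (D : ℝ) ^ omega * (((p * q : ℕ) : ℝ) ^ omega * (m : ℝ) ^ omega) := by
        rw [Real.mul_rpow (Nat.cast_nonneg _) (by positivity),
          Real.mul_rpow hpq0 hm0.le]
    _ = (D : ℝ) ^ omega * ((m : ℝ) ^ (omega - 2) * (((m * m : ℕ) : ℝ) *
          ((p * q : ℕ) : ℝ) ^ omega)) := by
        congr 1
        have : (m : ℝ) ^ omega = (m : ℝ) ^ (omega - 2) * ((m * m : ℕ) : ℝ) := by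
          push_cast
          rw [← pow_two, ← Real.rpow_natCast (m : ℝ) 2, ← Real.rpow_add hm0]
          congr 1
          push_cast
          ring
        rw [this]
        ring
    _ ≤ (D : ℝ) ^ omega * ((Fintype.card K : ℝ) ^ (omega - 2) * (r : ℝ) ^ 3) := by
        refine mul_le_mul_of_nonneg_left ?_ (by positivity)
        refine mul_le_mul (Real.rpow_le_rpow hm0.le hmK' (by linarith)) ?_ (by positivity)
          (by positivity)
        exact_mod_cast h5

/-- Kronecker powers of the weights. -/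
def tp (t : I → J → K → ℂ) (N : ℕ) : (Fin N → I) → (Fin N → J) → (Fin N → K) → ℂ :=
  fun i j k => ∏ s, t (i s) (j s) (k s)

lemma terms_tp (t : I → J → K → ℂ) (N : ℕ) : terms (tp t N) = terms t ^ N := by
  classical
  have h : Nat.card {x : (Fin N → I) × (Fin N → J) × (Fin N → K) //
      tp t N x.1 x.2.1 x.2.2 ≠ 0} =
      Nat.card (Fin N → {x : I × J × K // t x.1 x.2.1 x.2.2 ≠ 0}) := by
    refine Nat.card_congr
      { toFun := fun x s => ⟨(x.1.1 s, x.1.2.1 s, x.1.2.2 s), fun h0 => x.2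
          (Finset.prod_eq_zero (mem_univ s) h0)⟩
        invFun := fun f => ⟨(fun s => (f s).1.1, fun s => (f s).1.2.1, fun s => (f s).1.2.2),
          Finset.prod_ne_zero_iff.mpr fun s _ => (f s).2⟩
        left_inv := fun x => rfl
        right_inv := fun f => rfl }
  rw [terms, terms, h, Nat.card_fun, Nat.card_eq_fintype_card (α := Fin N), Fintype.card_fin]

lemma Rk_tp {t : I → J → K → ℂ} {N r : ℕ} (H : Rk (kp (WT t) N) r) : Rk (WT (tp t N)) r := by
  refine (H.comp (fun x : (Fin N → I) × (Fin N → J) => fun s => (x.1 s, x.2 s))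
    (fun x : (Fin N → J) × (Fin N → K) => fun s => (x.1 s, x.2 s))
    (fun x : (Fin N → K) × (Fin N → I) => fun s => (x.1 s, x.2 s))).congr ?_
  intro x y z
  simp only [kp, WT, tp]
  rw [Finset.prod_ite_zero]
  simp only [Finset.mem_univ, forall_true_left, funext_iff]
  by_cases h : ∀ s, x.2 s = y.1 s ∧ y.2 s = z.1 s ∧ z.2 s = x.1 s
  · rw [if_pos h, if_pos ⟨fun s => (h s).1, fun s => (h s).2.1, fun s => (h s).2.2⟩]
  · rw [if_neg h, if_neg]
    rintro ⟨h1, h2, h3⟩
    exact h fun s => ⟨h1 s, h2 s, h3 s⟩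

lemma log_pow_le (a N : ℕ) : Nat.log 2 (a ^ N) ≤ N * a := by
  have h1 : a ^ N ≤ 2 ^ (N * a) := by
    rw [mul_comm, pow_mul]
    exact Nat.pow_le_pow_left Nat.lt_two_pow_self.le N
  have := Nat.log_mono_right (b := 2) h1
  rwa [Nat.log_pow (by norm_num)] at this

/-- **Border rank of partial weighted matrix multiplication.** -/
theorem border (t : I → J → K → ℂ) {r : ℕ} (H : BRk (WT t) r) :
    (terms t : ℝ) ^ omega ≤ (Fintype.card K : ℝ) ^ (omega - 2) * (r : ℝ) ^ 3 := by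
  obtain ⟨h0, hh⟩ := H.pow
  set h : ℕ := h0 + Fintype.card I + Fintype.card J with hhd
  refine le_of_pow_le_poly (D := 8 ^ 3) (h := h) (k := 12) (by positivity) (by positivity) ?_
  intro N _
  have h1 := one_shot (tp t N) (Rk_tp (hh N))
  have hI : Fintype.card (Fin N → I) = Fintype.card I ^ N := by simp
  have hJ : Fintype.card (Fin N → J) = Fintype.card J ^ N := by simp
  have hK : Fintype.card (Fin N → K) = Fintype.card K ^ N := by simp
  rw [terms_tp, hI, hJ, hK] at h1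
  set D : ℕ := 8 * (Nat.log 2 (Fintype.card I ^ N) + 1) * (Nat.log 2 (Fintype.card J ^ N) + 1)
    with hD
  have hx0 : (0 : ℝ) ≤ (N : ℝ) * h + 1 := by positivity
  have hD1 : (D : ℝ) ≤ 8 * ((N : ℝ) * h + 1) ^ 2 := by
    have e1 : Nat.log 2 (Fintype.card I ^ N) + 1 ≤ N * h + 1 :=
      Nat.succ_le_succ ((log_pow_le _ _).trans (Nat.mul_le_mul_left _ (by omega)))
    have e2 : Nat.log 2 (Fintype.card J ^ N) + 1 ≤ N * h + 1 :=
      Nat.succ_le_succ ((log_pow_le _ _).trans (Nat.mul_le_mul_left _ (by omega)))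
    have e3 : D ≤ 8 * (N * h + 1) ^ 2 := by
      rw [hD, mul_assoc, pow_two]
      exact Nat.mul_le_mul_left _ (Nat.mul_le_mul e1 e2)
    exact_mod_cast e3
  have hD0 : (1 : ℝ) ≤ D := by
    have : 1 ≤ D := Nat.mul_pos (Nat.mul_pos (by norm_num) (Nat.succ_pos _)) (Nat.succ_pos _)
    exact_mod_cast this
  have hD2 : (D : ℝ) ^ omega ≤ 8 ^ 3 * ((N : ℝ) * h + 1) ^ 6 := by
    calc (D : ℝ) ^ omega ≤ (D : ℝ) ^ (3 : ℝ) :=
          Real.rpow_le_rpow_of_exponent_le hD0 omega_le_three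
      _ = (D : ℝ) ^ 3 := by exact_mod_cast Real.rpow_natCast (D : ℝ) 3
      _ ≤ (8 * ((N : ℝ) * h + 1) ^ 2) ^ 3 := pow_le_pow_left₀ (by linarith) hD1 3
      _ = _ := by ring
  have hr : (((r ^ N * (N * h0 + 1) ^ 2 : ℕ) : ℝ)) ^ 3 ≤
      ((r : ℝ) ^ 3) ^ N * ((N : ℝ) * h + 1) ^ 6 := by
    have e1 : ((N * h0 + 1 : ℕ) : ℝ) ≤ (N : ℝ) * h + 1 := by
      have : N * h0 + 1 ≤ N * h + 1 := Nat.succ_le_succ (Nat.mul_le_mul_left _ (by omega))
      exact_mod_cast this
    have e2 : (((N * h0 + 1 : ℕ) : ℝ)) ^ 6 ≤ ((N : ℝ) * h + 1) ^ 6 :=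
      pow_le_pow_left₀ (by positivity) e1 6
    calc (((r ^ N * (N * h0 + 1) ^ 2 : ℕ) : ℝ)) ^ 3 =
          ((r : ℝ) ^ 3) ^ N * (((N * h0 + 1 : ℕ) : ℝ)) ^ 6 := by
          push_cast; ring
      _ ≤ _ := mul_le_mul_of_nonneg_left e2 (by positivity)
  have hc0 : (0 : ℝ) ≤ Fintype.card K := Nat.cast_nonneg _
  have hcK : (((Fintype.card K ^ N : ℕ) : ℝ)) ^ (omega - 2) =
      ((Fintype.card K : ℝ) ^ (omega - 2)) ^ N := by
    push_cast
    rw [← Real.rpow_natCast, ← Real.rpow_natCast, ← Real.rpow_mul hc0, ← Real.rpow_mul hc0,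
      mul_comm]
  have htN : ((terms t : ℝ) ^ omega) ^ N = (((terms t ^ N : ℕ) : ℝ)) ^ omega := by
    push_cast
    rw [← Real.rpow_natCast, ← Real.rpow_natCast, ← Real.rpow_mul (Nat.cast_nonneg _),
      ← Real.rpow_mul (Nat.cast_nonneg _), mul_comm]
  rw [htN]
  refine h1.trans ?_
  rw [hcK]
  calc (D : ℝ) ^ omega * (((Fintype.card K : ℝ) ^ (omega - 2)) ^ N *
        (((r ^ N * (N * h0 + 1) ^ 2 : ℕ) : ℝ)) ^ 3)
      ≤ (8 ^ 3 * ((N : ℝ) * h + 1) ^ 6) * (((Fintype.card K : ℝ) ^ (omega - 2)) ^ N *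
        (((r : ℝ) ^ 3) ^ N * ((N : ℝ) * h + 1) ^ 6)) := by
        gcongr
    _ = 8 ^ 3 * ((N : ℝ) * h + 1) ^ 12 *
        ((Fintype.card K : ℝ) ^ (omega - 2) * (r : ℝ) ^ 3) ^ N := by
        rw [mul_pow]; ring

end Pool.Agent.T9h18.Part
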