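import Pool.Agent.T9h18.Part.Core

/-!
# Partial weighted matrix multiplication: asymptotic rank and the exponent
-/

set_option autoImplicit false
set_option linter.unusedSectionVars false

namespace Pool.Agent.T9h18.Part

open Polynomial Finset Filter Pool.Agent.H515R2.MMR Pool.Agent.Y538.Par

/-- The rank of a complex tensor. -/
noncomputable def trk {α β γ : Type*} (T : α → β → γ → ℂ) : ℕ := sInf {r : ℕ | Rk T r}

/-- The asymptotic rank of a complex tensor: the infimum over `N ≥ 1` of the `N`-th roots of the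
ranks of its `N`-th Kronecker powers `kp T N`. -/
noncomputable def arank {α β γ : Type*} (T : α → β → γ → ℂ) : ℝ :=
  ⨅ N : ℕ, (trk (kp T (N + 1)) : ℝ) ^ ((1 : ℝ) / ((N : ℝ) + 1))

section

variable {α β γ : Type*}

lemma Rk_exists [Fintype α] [Fintype β] (T : α → β → γ → ℂ) : ∃ r, Rk T r := by
  classical
  refine ⟨_, Rk.of_fintype (κ := α × β) (fun l a => if l.1 = a then 1 else 0)
    (fun l b => if l.2 = b then 1 else 0) (fun l c => T l.1 l.2 c) fun a b c => ?_⟩
  rw [Fintype.sum_eq_single (a, b)]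
  · simp
  · rintro ⟨x, y⟩ hne
    by_cases h1 : x = a
    · by_cases h2 : y = b
      · exact absurd (by rw [h1, h2]) hne
      · simp [h2]
    · simp [h1]

lemma Rk_trk [Fintype α] [Fintype β] (T : α → β → γ → ℂ) : Rk T (trk T) :=
  Nat.sInf_mem (s := {r : ℕ | Rk T r}) (Rk_exists T)

lemma trk_le {T : α → β → γ → ℂ} {r : ℕ} (h : Rk T r) : trk T ≤ r := Nat.sInf_le h

lemma arank_nonneg (T : α → β → γ → ℂ) : 0 ≤ arank T :=
  Real.iInf_nonneg fun _ => by positivity

lemma arank_bdd (T : α → β → γ → ℂ) : BddBelow (Set.range fun N : ℕ =>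
    (trk (kp T (N + 1)) : ℝ) ^ ((1 : ℝ) / ((N : ℝ) + 1))) :=
  ⟨0, by rintro _ ⟨N, rfl⟩; positivity⟩

/-- cyclic rotation -/
lemma Rk.rot {T : α → β → γ → ℂ} {r : ℕ} (h : Rk T r) : Rk (fun b c a => T a b c) r := by
  obtain ⟨u, v, w, h⟩ := h
  refine ⟨v, w, u, fun b c a => ?_⟩
  show T a b c = _
  rw [h]
  exact Finset.sum_congr rfl fun l _ => by ring

lemma trk_rot (T : α → β → γ → ℂ) : trk (fun b c a => T a b c) = trk T := by
  unfold trk
  congr 1
  ext r
  exact ⟨fun h => Rk.rot (Rk.rot h), fun h => Rk.rot h⟩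

lemma arank_rot (T : α → β → γ → ℂ) : arank (fun b c a => T a b c) = arank T := by
  unfold arank
  congr 1
  funext N
  have : kp (fun b c a => T a b c) (N + 1) = fun b c a => kp T (N + 1) a b c := rfl
  rw [this, trk_rot]

/-- The asymptotic rank is at most the border rank. -/
theorem arank_le_border [Fintype α] [Fintype β] {T : α → β → γ → ℂ} {r : ℕ} (H : BRk T r) :
    arank T ≤ r := by
  obtain ⟨h, hh⟩ := H.pow
  rcases Nat.eq_zero_or_pos r with h0 | h0
  · have h1 : arank T ≤ (trk (kp T (0 + 1)) : ℝ) ^ ((1 : ℝ) / (((0 : ℕ) : ℝ) + 1)) :=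
      ciInf_le (arank_bdd T) 0
    have h2 := trk_le (hh 1)
    rw [h0] at h2
    simp at h2
    simp at h1
    rw [h2] at h1
    simpa [h0] using h1
  have hr : (0 : ℝ) < r := by exact_mod_cast h0
  refine le_of_pow_le_poly (D := 1) (h := h) (k := 2) (arank_nonneg T) hr.le ?_
  intro N hN
  obtain ⟨M, rfl⟩ : ∃ M, N = M + 1 := ⟨N - 1, by omega⟩
  have h1 : arank T ≤ (trk (kp T (M + 1)) : ℝ) ^ ((1 : ℝ) / ((M : ℝ) + 1)) :=
    ciInf_le (arank_bdd T) M
  have h2 : arank T ^ (M + 1) ≤ trk (kp T (M + 1)) := by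
    refine (pow_le_pow_left₀ (arank_nonneg T) h1 (M + 1)).trans (le_of_eq ?_)
    rw [← Real.rpow_natCast, ← Real.rpow_mul (Nat.cast_nonneg _)]
    have : (1 : ℝ) / ((M : ℝ) + 1) * ((M + 1 : ℕ) : ℝ) = 1 := by
      have : (M : ℝ) + 1 ≠ 0 := by positivity
      push_cast
      field_simp
    rw [this, Real.rpow_one]
  have h3 : (trk (kp T (M + 1)) : ℝ) ≤ ((r ^ (M + 1) * ((M + 1) * h + 1) ^ 2 : ℕ) : ℝ) := by
    exact_mod_cast trk_le (hh (M + 1))
  refine (h2.trans h3).trans (le_of_eq ?_)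
  push_cast
  ring

end

section

variable {I J K : Type} [Fintype I] [Fintype J] [Fintype K] [DecidableEq I] [DecidableEq J]
  [DecidableEq K]

theorem arank_bound (t : I → J → K → ℂ) :
    (terms t : ℝ) ^ omega ≤ (Fintype.card K : ℝ) ^ (omega - 2) * arank (WT t) ^ 3 := by
  have h2 := two_le_omega
  rcases Nat.eq_zero_or_pos (terms t) with h0 | h0
  · rw [h0]
    simp only [Nat.cast_zero]
    rw [Real.zero_rpow (by linarith)]
    have := arank_nonneg (WT t)
    positivity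
  -- the number of slices is positive
  have hc : 0 < Fintype.card K := by
    rw [Fintype.card_pos_iff]
    by_contra hne
    rw [not_nonempty_iff] at hne
    have : terms t = 0 := by
      rw [terms, Nat.card_eq_zero]
      exact Or.inl ⟨fun x => hne.elim x.1.2.2⟩
    omega
  have hc' : (0 : ℝ) < Fintype.card K := by exact_mod_cast hc
  have hcp : (0 : ℝ) < (Fintype.card K : ℝ) ^ (omega - 2) := Real.rpow_pos_of_pos hc' _
  set y : ℝ := (terms t : ℝ) ^ omega / (Fintype.card K : ℝ) ^ (omega - 2) with hy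
  have hy0 : 0 ≤ y := by positivity
  have hx : y ^ ((1 : ℝ) / 3) ≤ arank (WT t) := by
    refine le_ciInf fun N => ?_
    set R : ℕ := trk (kp (WT t) (N + 1)) with hR
    have h3 := border (tp t (N + 1)) (Rk_tp (Rk_trk (kp (WT t) (N + 1)))).toBRk
    have hK : Fintype.card (Fin (N + 1) → K) = Fintype.card K ^ (N + 1) := by simp
    rw [terms_tp, hK, ← hR] at h3
    have e1 : (((Fintype.card K ^ (N + 1) : ℕ) : ℝ)) ^ (omega - 2) =
        ((Fintype.card K : ℝ) ^ (omega - 2)) ^ (N + 1) := by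
      push_cast
      rw [← Real.rpow_natCast, ← Real.rpow_natCast, ← Real.rpow_mul hc'.le,
        ← Real.rpow_mul hc'.le, mul_comm]
    have e2 : (((terms t ^ (N + 1) : ℕ) : ℝ)) ^ omega = ((terms t : ℝ) ^ omega) ^ (N + 1) := by
      push_cast
      rw [← Real.rpow_natCast, ← Real.rpow_natCast, ← Real.rpow_mul (Nat.cast_nonneg _),
        ← Real.rpow_mul (Nat.cast_nonneg _), mul_comm]
    rw [e1, e2] at h3
    have h4 : y ^ (N + 1) ≤ (R : ℝ) ^ 3 := by
      rw [hy, div_pow, div_le_iff₀ (pow_pos hcp _), mul_comm]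
      exact h3
    have h5 : y ≤ ((R : ℝ) ^ ((1 : ℝ) / ((N : ℝ) + 1))) ^ 3 := by
      have e3 : ((R : ℝ) ^ ((1 : ℝ) / ((N : ℝ) + 1))) ^ 3 =
          ((R : ℝ) ^ 3) ^ ((1 : ℝ) / ((N : ℝ) + 1)) := by
        rw [← Real.rpow_natCast, ← Real.rpow_natCast, ← Real.rpow_mul (Nat.cast_nonneg _),
          ← Real.rpow_mul (Nat.cast_nonneg _), mul_comm]
      have e4 : (y ^ (N + 1)) ^ ((1 : ℝ) / ((N : ℝ) + 1)) = y := by
        rw [← Real.rpow_natCast, ← Real.rpow_mul hy0]
        have : ((N + 1 : ℕ) : ℝ) * (1 / ((N : ℝ) + 1)) = 1 := by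
          have : (N : ℝ) + 1 ≠ 0 := by positivity
          push_cast
          field_simp
        rw [this, Real.rpow_one]
      rw [e3, ← e4]
      exact Real.rpow_le_rpow (by positivity) h4 (by positivity)
    have h6 := Real.rpow_le_rpow hy0 h5 (show (0 : ℝ) ≤ 1 / 3 by norm_num)
    refine h6.trans (le_of_eq ?_)
    rw [← Real.rpow_natCast, ← Real.rpow_mul (by positivity)]
    norm_num
  have h7 : y ≤ arank (WT t) ^ 3 := by
    have h8 := pow_le_pow_left₀ (by positivity) hx 3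
    refine le_trans (le_of_eq ?_) h8
    rw [← Real.rpow_natCast, ← Real.rpow_mul hy0]
    norm_num
  rw [hy, div_le_iff₀ hcp] at h7
  linarith

/-- the weights after a rotation of the three index sets -/
lemma WT_rot (t : I → J → K → ℂ) :
    (fun y z x => WT t x y z) = WT (fun j k i => t i j k) := by
  funext y z x
  unfold WT
  by_cases h : x.2 = y.1 ∧ y.2 = z.1 ∧ z.2 = x.1
  · rw [if_pos h, if_pos ⟨h.2.1, h.2.2, h.1⟩, h.1, h.2.2]
  · rw [if_neg h, if_neg (fun h' => h ⟨h'.2.2, h'.1, h'.2.1⟩)]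

lemma terms_rot (t : I → J → K → ℂ) : terms (fun j k i => t i j k) = terms t :=
  Nat.card_congr
    { toFun := fun x => ⟨(x.1.2.2, x.1.1, x.1.2.1), x.2⟩
      invFun := fun x => ⟨(x.1.2.1, x.1.2.2, x.1.1), x.2⟩
      left_inv := fun _ => rfl
      right_inv := fun _ => rfl }

theorem arank_bound_I (t : I → J → K → ℂ) :
    (terms t : ℝ) ^ omega ≤ (Fintype.card I : ℝ) ^ (omega - 2) * arank (WT t) ^ 3 := by
  have h := arank_bound (fun j k i => t i j k)
  rwa [terms_rot, ← WT_rot, arank_rot] at h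

theorem arank_bound_J (t : I → J → K → ℂ) :
    (terms t : ℝ) ^ omega ≤ (Fintype.card J : ℝ) ^ (omega - 2) * arank (WT t) ^ 3 := by
  have h := arank_bound_I (fun j k i => t i j k)
  rwa [terms_rot, ← WT_rot, arank_rot] at h

end

/-- **Main theorem.** -/
theorem arank_bound_min {a b c : ℕ} (t : Fin a → Fin b → Fin c → ℂ) :
    (terms t : ℝ) ^ omega ≤ ((min a (min b c) : ℕ) : ℝ) ^ (omega - 2) * arank (WT t) ^ 3 := by
  have h1 := arank_bound t
  have h2 := arank_bound_I t
  have h3 := arank_bound_J t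
  rw [Fintype.card_fin] at h1 h2 h3
  rcases min_choice a (min b c) with h | h
  · rw [h]; exact h2
  · rcases min_choice b c with h' | h'
    · rw [h, h']; exact h3
    · rw [h, h']; exact h1

theorem border_bound_min {a b c r : ℕ} (t : Fin a → Fin b → Fin c → ℂ) (H : BRk (WT t) r) :
    (terms t : ℝ) ^ omega ≤ ((min a (min b c) : ℕ) : ℝ) ^ (omega - 2) * (r : ℝ) ^ 3 := by
  refine (arank_bound_min t).trans (mul_le_mul_of_nonneg_left ?_ (by positivity))
  exact pow_le_pow_left₀ (arank_nonneg _) (arank_le_border H) 3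

theorem exponent_bound {n : ℕ} (hn : 2 ≤ n) (t : Fin n → Fin n → Fin n → ℂ) (σ τ : ℝ)
    (hσ : 1 < σ) (ht : (n : ℝ) ^ σ ≤ terms t) (ha : arank (WT t) ≤ (n : ℝ) ^ τ) :
    omega ≤ (3 * τ - 2) / (σ - 1) := by
  have h2 := two_le_omega
  have hn0 : (0 : ℝ) < n := by exact_mod_cast (by omega : 0 < n)
  have hn1 : (1 : ℝ) < n := by exact_mod_cast (by omega : 1 < n)
  have h := arank_bound_min t
  rw [min_self, min_self] at h
  have h3 : ((n : ℝ) ^ σ) ^ omega ≤ (n : ℝ) ^ (omega - 2) * ((n : ℝ) ^ τ) ^ 3 :=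
    (Real.rpow_le_rpow (by positivity) ht (by linarith)).trans (h.trans
      (mul_le_mul_of_nonneg_left (pow_le_pow_left₀ (arank_nonneg _) ha 3) (by positivity)))
  rw [← Real.rpow_natCast ((n : ℝ) ^ τ) 3, ← Real.rpow_mul hn0.le, ← Real.rpow_mul hn0.le,
    ← Real.rpow_add hn0] at h3
  have h4 := (Real.rpow_le_rpow_left_iff hn1).mp h3
  rw [le_div_iff₀ (by linarith)]
  push_cast at h4
  nlinarith

lemma Rk_one_of_hasRank {n r : ℕ} (H : HasRank n r) :
    Rk (WT (fun _ _ _ : Fin n => (1 : ℂ))) r := by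
  obtain ⟨a, b, c, h⟩ := H
  refine ⟨fun l x => a l x.1 x.2, fun l y => b l y.1 y.2, fun l z => c l z.1 z.2, ?_⟩
  intro x y z
  rw [← h]
  rfl

lemma arank_le_trk {α β γ : Type*} [Fintype α] [Fintype β] {T : α → β → γ → ℂ} {r : ℕ}
    (H : Rk T r) : arank T ≤ r := arank_le_border H.toBRk

lemma terms_one (n : ℕ) : terms (fun _ _ _ : Fin n => (1 : ℂ)) = n ^ 3 := by
  have h : Nat.card {x : Fin n × Fin n × Fin n // (1 : ℂ) ≠ 0} =
      Nat.card (Fin n × Fin n × Fin n) :=
    Nat.card_congr (Equiv.subtypeUnivEquiv fun _ => one_ne_zero)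
  rw [terms, h]
  simp [pow_succ, mul_assoc]

/-- The statement that the exponent is two, in terms of sparse sets of weights. -/
theorem omega_eq_two_iff : omega = 2 ↔ ∀ ε : ℝ, 0 < ε → ∃ (n : ℕ) (t : Fin n → Fin n → Fin n → ℂ),
    2 ≤ n ∧ (n : ℝ) ^ (3 - ε) ≤ terms t ∧ arank (WT t) ≤ (n : ℝ) ^ (2 + ε) := by
  have h2 := two_le_omega
  constructor
  · intro hω ε hε
    have h1 : omega < 2 + ε / 2 := by linarith
    obtain ⟨τ, ⟨C, hC⟩, hτ⟩ := exists_lt_of_csInf_lt omega_set_nonempty h1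
    have t := (tendsto_rpow_atTop (y := ε / 2) (by linarith)).comp
      (tendsto_natCast_atTop_atTop (R := ℝ))
    obtain ⟨n, hn1, hn2⟩ := ((t.eventually (eventually_gt_atTop C)).and
      (Filter.eventually_ge_atTop 2)).exists
    simp only [Function.comp] at hn1
    have hn0 : (0 : ℝ) < n := by exact_mod_cast (by omega : 0 < n)
    have hn1' : (1 : ℝ) ≤ n := by exact_mod_cast (by omega : 1 ≤ n)
    refine ⟨n, fun _ _ _ => 1, hn2, ?_, ?_⟩
    · rw [terms_one]
      push_cast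
      have := Real.rpow_le_rpow_of_exponent_le hn1' (show 3 - ε ≤ ((3 : ℕ) : ℝ) by
        push_cast; linarith)
      rwa [Real.rpow_natCast] at this
    · refine (arank_le_trk (Rk_one_of_hasRank (hasRank_rk n))).trans ((hC n).trans ?_)
      have e1 : (n : ℝ) ^ (2 + ε) = (n : ℝ) ^ (ε / 2) * (n : ℝ) ^ (2 + ε / 2) := by
        rw [← Real.rpow_add hn0]; congr 1; ring
      rw [e1]
      have e2 : (n : ℝ) ^ τ ≤ (n : ℝ) ^ (2 + ε / 2) :=
        Real.rpow_le_rpow_of_exponent_le hn1' hτ.le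
      have e3 : 0 < (n : ℝ) ^ τ := Real.rpow_pos_of_pos hn0 _
      have e4 : 0 < (n : ℝ) ^ (ε / 2) := Real.rpow_pos_of_pos hn0 _
      nlinarith
  · intro H
    refine le_antisymm ?_ h2
    refine le_of_forall_pos_le_add fun δ hδ => ?_
    set ε : ℝ := min (δ / 3) 1 with hε
    have hε0 : 0 < ε := lt_min (by linarith) one_pos
    have hε1 : ε ≤ 1 := min_le_right _ _
    have hε2 : ε ≤ δ / 3 := min_le_left _ _
    obtain ⟨n, t, hn, ht, ha⟩ := H ε hε0
    have h3 := exponent_bound hn t (3 - ε) (2 + ε) (by linarith) ht ha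
    rw [le_div_iff₀ (by linarith)] at h3
    have h4 := omega_le_three
    nlinarith

end Pool.Agent.T9h18.Part
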